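import Mathlib

/-!
# A bounded tolerance graph which is not a max-tolerance graph

The complete bipartite graph `K_{3,3}` is a bounded tolerance graph (even a containment graph of
intervals), but it is not a max-tolerance graph.

Put `x_v = (L v, - R v, t v)` for a max-tolerance representation. Distinct `u`, `v` are adjacent if
and only if `S(x_u, x_v) = ∑_c max (x_u c) (x_v c) ≤ 0`. For non-adjacent `u`, `v` with a common
neighbour there is a coordinate `c` such that one of the two vectors is larger in the coordinate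
`c` and the other one in the two other coordinates. The coordinates obtained from two vertices on
one side of `K_{3,3}` and from two vertices on the other side are different. So on one of the sides
all three pairs give the same coordinate `c`, and this side is a chain `x, m, y`. Every vertex `q` of
the other side is smaller than `m` in the coordinate `c` and in one of the other coordinates; two of
the three vertices have the same other coordinate, and these two would be adjacent.
-/

namespace Pool.Agent.Results.MP_78c384_co.KThreeThree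

/-- The length of the intersection of the closed intervals `[a, b]` and `[c, d]`
(`0` if the intersection is empty). -/
def interLen (a b c d : ℝ) : ℝ := max 0 (min b d - max a c)

/-- `G` is a bounded tolerance graph: there are closed intervals `[L v, R v]` and tolerances
`0 < t v ≤ R v - L v` such that distinct vertices `u`, `v` are adjacent if and only if the length
of the intersection of their intervals is at least `min (t u) (t v)`. -/
def IsBoundedTolerance {V : Type*} (G : SimpleGraph V) : Prop :=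
  ∃ L R t : V → ℝ, (∀ v, L v ≤ R v) ∧ (∀ v, 0 < t v) ∧ (∀ v, t v ≤ R v - L v) ∧
    ∀ u v, u ≠ v → (G.Adj u v ↔ min (t u) (t v) ≤ interLen (L u) (R u) (L v) (R v))

/-- `G` is a max-tolerance graph: there are closed intervals `[L v, R v]` and tolerances
`0 < t v` such that distinct vertices `u`, `v` are adjacent if and only if the length
of the intersection of their intervals is at least `max (t u) (t v)`. -/
def IsMaxTolerance {V : Type*} (G : SimpleGraph V) : Prop :=
  ∃ L R t : V → ℝ, (∀ v, L v ≤ R v) ∧ (∀ v, 0 < t v) ∧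
    ∀ u v, u ≠ v → (G.Adj u v ↔ max (t u) (t v) ≤ interLen (L u) (R u) (L v) (R v))

/-- the sum of the coordinatewise maxima -/
def S (x y : Fin 3 → ℝ) : ℝ := max (x 0) (y 0) + max (x 1) (y 1) + max (x 2) (y 2)

/-- `x` is the larger one in the coordinate `c`, and `y` in the two other coordinates -/
def Sg (c : Fin 3) (x y : Fin 3 → ℝ) : Prop := y c ≤ x c ∧ ∀ d, d ≠ c → x d ≤ y d

theorem S_comm (x y : Fin 3 → ℝ) : S x y = S y x := by
  unfold S
  rw [max_comm (x 0), max_comm (x 1), max_comm (x 2)]

theorem S_eq {c d e : Fin 3} (h1 : c ≠ d) (h2 : c ≠ e) (h3 : d ≠ e) (x y : Fin 3 → ℝ) :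
    S x y = max (x c) (y c) + max (x d) (y d) + max (x e) (y e) := by
  unfold S
  fin_cases c <;> fin_cases d <;> fin_cases e <;>
    first
      | exact absurd rfl h1
      | exact absurd rfl h2
      | exact absurd rfl h3
      | (simp only [Fin.zero_eta, Fin.mk_one, Fin.reduceFinMk]; done)
      | (simp only [Fin.zero_eta, Fin.mk_one, Fin.reduceFinMk]; ring)

theorem others (c : Fin 3) : ∃ d e : Fin 3, c ≠ d ∧ c ≠ e ∧ d ≠ e := by
  revert c
  decide

theorem exists_Sg {x y z : Fin 3 → ℝ} (h : 0 < S x y) (hx : S x z ≤ 0) (hy : S y z ≤ 0) :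
    ∃ c, Sg c x y ∨ Sg c y x := by
  unfold S at h hx hy
  have x0 := le_max_left (x 0) (z 0)
  have x1 := le_max_left (x 1) (z 1)
  have x2 := le_max_left (x 2) (z 2)
  have y0 := le_max_left (y 0) (z 0)
  have y1 := le_max_left (y 1) (z 1)
  have y2 := le_max_left (y 2) (z 2)
  have aux : ∀ c : Fin 3, ∀ u v : Fin 3 → ℝ, v c ≤ u c →
      (∀ d, d ≠ c → u d ≤ v d) → Sg c u v := fun c u v h1 h2 => ⟨h1, h2⟩
  rcases le_total (x 0) (y 0) with h0 | h0 <;> rcases le_total (x 1) (y 1) with h1 | h1 <;>
    rcases le_total (x 2) (y 2) with h2 | h2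
  · rw [max_eq_right h0, max_eq_right h1, max_eq_right h2] at h
    linarith
  · exact ⟨2, Or.inl (aux 2 x y h2 (by intro d hd; fin_cases d <;> first | exact h0 | exact h1 | exact absurd rfl hd))⟩
  · exact ⟨1, Or.inl (aux 1 x y h1 (by intro d hd; fin_cases d <;> first | exact h0 | exact h2 | exact absurd rfl hd))⟩
  · exact ⟨0, Or.inr (aux 0 y x h0 (by intro d hd; fin_cases d <;> first | exact h1 | exact h2 | exact absurd rfl hd))⟩
  · exact ⟨0, Or.inl (aux 0 x y h0 (by intro d hd; fin_cases d <;> first | exact h1 | exact h2 | exact absurd rfl hd))⟩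
  · exact ⟨1, Or.inr (aux 1 y x h1 (by intro d hd; fin_cases d <;> first | exact h0 | exact h2 | exact absurd rfl hd))⟩
  · exact ⟨2, Or.inr (aux 2 y x h2 (by intro d hd; fin_cases d <;> first | exact h0 | exact h1 | exact absurd rfl hd))⟩
  · rw [max_eq_left h0, max_eq_left h1, max_eq_left h2] at h
    linarith

/-- Pairs on different sides have different coordinates. -/
theorem Sg_ne {c : Fin 3} {x y u v : Fin 3 → ℝ} (h1 : 0 < S x y) (h2 : 0 < S u v)
    (h3 : Sg c x y) (h4 : Sg c u v) (h5 : S x v ≤ 0) (h6 : S y u ≤ 0) : False := by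
  obtain ⟨d, e, cd, ce, de⟩ := others c
  rw [S_eq cd ce de] at h1 h2 h5 h6
  rw [max_eq_left h3.1, max_eq_right (h3.2 d cd.symm), max_eq_right (h3.2 e ce.symm)] at h1
  rw [max_eq_left h4.1, max_eq_right (h4.2 d cd.symm), max_eq_right (h4.2 e ce.symm)] at h2
  have a1 := le_max_left (x c) (v c)
  have a2 := le_max_right (x d) (v d)
  have a3 := le_max_right (x e) (v e)
  have b1 := le_max_right (y c) (u c)
  have b2 := le_max_left (y d) (u d)
  have b3 := le_max_left (y e) (u e)
  linarith

/-- Two vertices below `m` in the same two coordinates are adjacent. -/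
theorem close {c d e : Fin 3} (cd : c ≠ d) (ce : c ≠ e) (de : d ≠ e) {m u v : Fin 3 → ℝ}
    (hu : S u m ≤ 0) (hv : S v m ≤ 0) (uc : u c ≤ m c) (vc : v c ≤ m c) (ud : u d ≤ m d)
    (vd : v d ≤ m d) : S u v ≤ 0 := by
  rw [S_eq cd ce de] at hu hv ⊢
  rw [max_eq_right uc, max_eq_right ud] at hu
  rw [max_eq_right vc, max_eq_right vd] at hv
  have h1 := max_le uc vc
  have h2 := max_le ud vd
  have h3 := le_max_left (u e) (m e)
  have h4 := le_max_left (v e) (m e)
  rcases le_total (u e) (v e) with h | h
  · rw [max_eq_right h]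
    linarith
  · rw [max_eq_left h]
    linarith

/-- A chain `x, m, y` on one side is impossible. -/
theorem chain {c : Fin 3} {x m y : Fin 3 → ℝ} {q : Fin 3 → Fin 3 → ℝ}
    (hxm : 0 < S x m) (hmy : 0 < S m y) (h1 : Sg c x m) (h2 : Sg c m y)
    (hx : ∀ j, S (q j) x ≤ 0) (hm : ∀ j, S (q j) m ≤ 0) (hy : ∀ j, S (q j) y ≤ 0)
    (hq : ∀ i j, i ≠ j → 0 < S (q i) (q j)) : False := by
  obtain ⟨d, e, cd, ce, de⟩ := others c
  have hc : ∀ j, q j c ≤ m c := by
    intro j
    have a := hy j
    rw [S_eq cd ce de] at a hmy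
    rw [max_eq_left h2.1, max_eq_right (h2.2 d cd.symm), max_eq_right (h2.2 e ce.symm)] at hmy
    have a1 := le_max_left (q j c) (y c)
    have a2 := le_max_right (q j d) (y d)
    have a3 := le_max_right (q j e) (y e)
    linarith
  have hde : ∀ j, q j d ≤ m d ∨ q j e ≤ m e := by
    intro j
    by_contra hcon
    push Not at hcon
    have a := hx j
    rw [S_eq cd ce de] at a hxm
    rw [max_eq_left h1.1, max_eq_right (h1.2 d cd.symm), max_eq_right (h1.2 e ce.symm)] at hxm
    have a1 := le_max_right (q j c) (x c)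
    have a2 := le_max_left (q j d) (x d)
    have a3 := le_max_left (q j e) (x e)
    linarith [hcon.1, hcon.2]
  have hd : ∀ i j, i ≠ j → q i d ≤ m d → q j d ≤ m d → False := fun i j hij h h' =>
    absurd (hq i j hij) (not_lt.2 (close cd ce de (hm i) (hm j) (hc i) (hc j) h h'))
  have he : ∀ i j, i ≠ j → q i e ≤ m e → q j e ≤ m e → False := fun i j hij h h' =>
    absurd (hq i j hij) (not_lt.2 (close ce cd de.symm (hm i) (hm j) (hc i) (hc j) h h'))
  rcases hde 0 with a | a <;> rcases hde 1 with b | b <;> rcases hde 2 with g | g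
  · exact hd 0 1 (by decide) a b
  · exact hd 0 1 (by decide) a b
  · exact hd 0 2 (by decide) a g
  · exact he 1 2 (by decide) b g
  · exact hd 1 2 (by decide) b g
  · exact he 0 2 (by decide) a g
  · exact he 0 1 (by decide) a b
  · exact he 0 1 (by decide) a b

/-- If all the pairs of one side have the same coordinate, this side is a chain. -/
theorem one_color {c : Fin 3} {p q : Fin 3 → Fin 3 → ℝ} (hpq : ∀ i j, S (p i) (q j) ≤ 0)
    (hp : ∀ i j, i ≠ j → 0 < S (p i) (p j)) (hq : ∀ i j, i ≠ j → 0 < S (q i) (q j))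
    (h : ∀ i j, i ≠ j → Sg c (p i) (p j) ∨ Sg c (p j) (p i)) : False := by
  have hqp : ∀ i j, S (q j) (p i) ≤ 0 := fun i j => by
    rw [S_comm]
    exact hpq i j
  have key : ∀ i j k, i ≠ j → j ≠ k → Sg c (p i) (p j) → Sg c (p j) (p k) → False :=
    fun i j k hij hjk h1 h2 => chain (hp i j hij) (hp j k hjk) h1 h2 (hqp i) (hqp j) (hqp k) hq
  rcases h 0 1 (by decide) with a | a <;> rcases h 1 2 (by decide) with b | b <;>
    rcases h 0 2 (by decide) with g | g
  · exact key 0 1 2 (by decide) (by decide) a b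
  · exact key 0 1 2 (by decide) (by decide) a b
  · exact key 0 2 1 (by decide) (by decide) g b
  · exact key 2 0 1 (by decide) (by decide) g a
  · exact key 1 0 2 (by decide) (by decide) a g
  · exact key 1 2 0 (by decide) (by decide) b g
  · exact key 2 1 0 (by decide) (by decide) b a
  · exact key 2 1 0 (by decide) (by decide) b a

/-- There are no six vectors which represent `K_{3,3}`. -/
theorem no_rep {p q : Fin 3 → Fin 3 → ℝ} (hpq : ∀ i j, S (p i) (q j) ≤ 0)
    (hp : ∀ i j, i ≠ j → 0 < S (p i) (p j)) (hq : ∀ i j, i ≠ j → 0 < S (q i) (q j)) : False := by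
  have hqp : ∀ i j, S (q i) (p j) ≤ 0 := fun i j => by
    rw [S_comm]
    exact hpq j i
  have cp : ∀ i j, ∃ c, i ≠ j → Sg c (p i) (p j) ∨ Sg c (p j) (p i) := by
    intro i j
    by_cases hij : i = j
    · exact ⟨0, fun h => absurd hij h⟩
    · obtain ⟨c, hc⟩ := exists_Sg (hp i j hij) (hpq i 0) (hpq j 0)
      exact ⟨c, fun _ => hc⟩
  have cq : ∀ i j, ∃ c, i ≠ j → Sg c (q i) (q j) ∨ Sg c (q j) (q i) := by
    intro i j
    by_cases hij : i = j
    · exact ⟨0, fun h => absurd hij h⟩
    · obtain ⟨c, hc⟩ := exists_Sg (hq i j hij) (hqp i 0) (hqp j 0)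
      exact ⟨c, fun _ => hc⟩
  choose a ha using cp
  choose b hb using cq
  have hne : ∀ i j k l, i ≠ j → k ≠ l → a i j ≠ b k l := by
    intro i j k l hij hkl heq
    have h1 := ha i j hij
    have h2 := hb k l hkl
    rw [heq] at h1
    rcases h1 with h1 | h1 <;> rcases h2 with h2 | h2
    · exact Sg_ne (hp i j hij) (hq k l hkl) h1 h2 (hpq i l) (hpq j k)
    · exact Sg_ne (hp i j hij) (hq l k hkl.symm) h1 h2 (hpq i k) (hpq j l)
    · exact Sg_ne (hp j i hij.symm) (hq k l hkl) h1 h2 (hpq j l) (hpq i k)
    · exact Sg_ne (hp j i hij.symm) (hq l k hkl.symm) h1 h2 (hpq j k) (hpq i l)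
  have pig : ∀ a0 a1 a2 b0 b1 b2 : Fin 3, a0 ≠ b0 → a0 ≠ b1 → a0 ≠ b2 → a1 ≠ b0 → a1 ≠ b1 →
      a1 ≠ b2 → a2 ≠ b0 → a2 ≠ b1 → a2 ≠ b2 → (a0 = a1 ∧ a0 = a2) ∨ (b0 = b1 ∧ b0 = b2) := by
    decide
  have h01 : (0 : Fin 3) ≠ 1 := by decide
  have h12 : (1 : Fin 3) ≠ 2 := by decide
  have h02 : (0 : Fin 3) ≠ 2 := by decide
  have full : ∀ {r : Fin 3 → Fin 3 → ℝ} {g : Fin 3 → Fin 3 → Fin 3},
      (∀ i j, i ≠ j → Sg (g i j) (r i) (r j) ∨ Sg (g i j) (r j) (r i)) →
      g 0 1 = g 1 2 → g 0 1 = g 0 2 →
      ∀ i j, i ≠ j → Sg (g 0 1) (r i) (r j) ∨ Sg (g 0 1) (r j) (r i) := by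
    intro r g hg e1 e2 i j hij
    have g1 := hg 0 1 h01
    have g2 := hg 1 2 h12
    have g3 := hg 0 2 h02
    rw [← e1] at g2
    rw [← e2] at g3
    fin_cases i <;> fin_cases j <;>
      first
        | exact absurd rfl hij
        | exact g1
        | exact g2
        | exact g3
        | exact g1.symm
        | exact g2.symm
        | exact g3.symm
  rcases pig (a 0 1) (a 1 2) (a 0 2) (b 0 1) (b 1 2) (b 0 2)
    (hne _ _ _ _ h01 h01) (hne _ _ _ _ h01 h12) (hne _ _ _ _ h01 h02)
    (hne _ _ _ _ h12 h01) (hne _ _ _ _ h12 h12) (hne _ _ _ _ h12 h02)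
    (hne _ _ _ _ h02 h01) (hne _ _ _ _ h02 h12) (hne _ _ _ _ h02 h02) with ⟨e1, e2⟩ | ⟨e1, e2⟩
  · exact one_color hpq hp hq (full ha e1 e2)
  · exact one_color hqp hq hp (full hb e1 e2)

/-- Adjacency in a max-tolerance representation in terms of `S`. -/
theorem adj_iff {a b c d t t' : ℝ} (ht : 0 < t) :
    max t t' ≤ interLen a b c d ↔ S ![a, -b, t] ![c, -d, t'] ≤ 0 := by
  have h : S ![a, -b, t] ![c, -d, t'] = max a c - min b d + max t t' := by
    unfold S
    simp only [Matrix.cons_val]
    rw [max_neg_neg]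
    ring
  rw [h]
  unfold interLen
  have h0 : 0 < max t t' := lt_max_of_lt_left ht
  constructor
  · intro h1
    rcases le_total (min b d - max a c) 0 with h2 | h2
    · rw [max_eq_left h2] at h1
      linarith
    · rw [max_eq_right h2] at h1
      linarith
  · intro h1
    refine le_trans ?_ (le_max_right _ _)
    linarith

theorem not_max : ¬ IsMaxTolerance (completeBipartiteGraph (Fin 3) (Fin 3)) := by
  rintro ⟨L, R, t, -, ht, hadj⟩
  have key : ∀ u v, u ≠ v → ((completeBipartiteGraph (Fin 3) (Fin 3)).Adj u v ↔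
      S ![L u, -R u, t u] ![L v, -R v, t v] ≤ 0) := fun u v huv => by
    rw [hadj u v huv]
    exact adj_iff (ht u)
  refine no_rep (p := fun i => ![L (Sum.inl i), -R (Sum.inl i), t (Sum.inl i)])
    (q := fun i => ![L (Sum.inr i), -R (Sum.inr i), t (Sum.inr i)]) ?_ ?_ ?_
  · intro i j
    exact (key (Sum.inl i) (Sum.inr j) Sum.inl_ne_inr).1 (by simp)
  · intro i j hij
    have := (key (Sum.inl i) (Sum.inl j) (fun h => hij (Sum.inl_injective h))).not
    exact not_le.1 (this.1 (by simp))
  · intro i j hij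
    have := (key (Sum.inr i) (Sum.inr j) (fun h => hij (Sum.inr_injective h))).not
    exact not_le.1 (this.1 (by simp))

theorem bounded : IsBoundedTolerance (completeBipartiteGraph (Fin 3) (Fin 3)) := by
  refine ⟨Sum.elim (fun i => (i : ℝ)) (fun j => (j : ℝ) - 3),
    Sum.elim (fun i => (i : ℝ) + 10) (fun j => (j : ℝ) + 20),
    Sum.elim (fun _ => 10) (fun _ => 23), ?_, ?_, ?_, ?_⟩
  · rintro (i | i)
    · simp only [Sum.elim_inl]; linarith
    · simp only [Sum.elim_inr]; linarith
  · rintro (i | i)
    · simp only [Sum.elim_inl]; norm_num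
    · simp only [Sum.elim_inr]; norm_num
  · rintro (i | i)
    · simp only [Sum.elim_inl]; linarith
    · simp only [Sum.elim_inr]; linarith
  · have same : ∀ (i j : Fin 3) (l : ℝ), i ≠ j → 0 < l → ∀ s : ℝ,
        ¬ min l l ≤ interLen ((i : ℝ) + s) ((i : ℝ) + s + l) ((j : ℝ) + s) ((j : ℝ) + s + l) := by
      intro i j l hij hl s hle
      rw [min_self] at hle
      unfold interLen at hle
      rcases lt_or_gt_of_ne hij with h | h
      · have h' : (i : ℝ) < j := by exact_mod_cast h
        rw [min_eq_left (by linarith), max_eq_right (a := (i : ℝ) + s) (by linarith)] at hle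
        exact absurd hle (not_le.2 (max_lt hl (by linarith)))
      · have h' : (j : ℝ) < i := by exact_mod_cast h
        rw [min_eq_right (by linarith), max_eq_left (a := (i : ℝ) + s) (by linarith)] at hle
        exact absurd hle (not_le.2 (max_lt hl (by linarith)))
    have cross : ∀ i j : Fin 3,
        min (10 : ℝ) 23 ≤ interLen (i : ℝ) ((i : ℝ) + 10) ((j : ℝ) - 3) ((j : ℝ) + 20) := by
      intro i j
      have hi : (0 : ℝ) ≤ i ∧ (i : ℝ) ≤ 2 := by
        constructor
        · positivity
        · have : (i : ℕ) ≤ 2 := by omega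
          exact_mod_cast this
      have hj : (0 : ℝ) ≤ j ∧ (j : ℝ) ≤ 2 := by
        constructor
        · positivity
        · have : (j : ℕ) ≤ 2 := by omega
          exact_mod_cast this
      unfold interLen
      rw [min_eq_left (by norm_num), min_eq_left (a := (i : ℝ) + 10) (by linarith [hi.2, hj.1]),
        max_eq_left (a := (i : ℝ)) (by linarith [hi.1, hj.2])]
      refine le_trans ?_ (le_max_right _ _)
      linarith
    rintro (i | i) (j | j) hij
    · have hne : i ≠ j := fun h => hij (by rw [h])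
      have := same i j 10 hne (by norm_num) 0
      simp only [add_zero] at this
      simp only [Sum.elim_inl]
      exact iff_of_false (by simp) this
    · simp only [Sum.elim_inl, Sum.elim_inr]
      exact iff_of_true (by simp) (cross i j)
    · simp only [Sum.elim_inl, Sum.elim_inr]
      refine iff_of_true (by simp) ?_
      have := cross j i
      unfold interLen at this ⊢
      rwa [min_comm (23 : ℝ), min_comm ((i : ℝ) + 20), max_comm ((i : ℝ) - 3)]
    · have hne : i ≠ j := fun h => hij (by rw [h])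
      have := same i j 23 hne (by norm_num) (-3)
      simp only [Sum.elim_inr]
      have e1 : ∀ k : Fin 3, (k : ℝ) + -3 = (k : ℝ) - 3 := fun k => by ring
      have e2 : ∀ k : Fin 3, (k : ℝ) - 3 + 23 = (k : ℝ) + 20 := fun k => by ring
      rw [e1, e1, e2, e2] at this
      exact iff_of_false (by simp) this

/-- **`K_{3,3}` is a bounded tolerance graph, but it is not a max-tolerance graph.** -/
theorem result : IsBoundedTolerance (completeBipartiteGraph (Fin 3) (Fin 3)) ∧
    ¬ IsMaxTolerance (completeBipartiteGraph (Fin 3) (Fin 3)) :=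
  ⟨bounded, not_max⟩

end Pool.Agent.Results.MP_78c384_co.KThreeThree
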